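import Pool.Agent.Q220.Match.Main

/-!
A degree law carried by the odd integers for which the stable multi-matching of the Poisson process
on the line has an infinite component.
-/

set_option autoImplicit false

namespace Pool.Agent.Results.MP_32afb7_pr.OddDegreesPercolate

open MeasureTheory ProbabilityTheory Pool.Agent.Q220.MM
open scoped ENNReal

universe u

/-- There is a probability law `μ` carried by the odd positive integers such that for the Poisson
process of intensity one on `ℝ` (enumerated as `x n`) with independent degrees `D n` of law `μ`,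
almost surely every stable multi-matching, with degrees exactly `D n`, has an infinite component. -/
theorem result : ∃ μ : Measure ℕ, IsProbabilityMeasure μ ∧ μ {n | Odd n} = 1 ∧
    ∀ (Ω : Type u) [MeasurableSpace Ω] (P : Measure Ω) [IsProbabilityMeasure P]
      (x : Ω → ℕ → ℝ) (D : Ω → ℕ → ℕ), IsMarkedPoisson P μ x D →
      ∀ᵐ ω ∂P, ∀ G : SimpleGraph ℕ, ExactStable (x ω) (D ω) G →
        ∃ C : G.ConnectedComponent, C.supp.Infinite := by
  refine ⟨geo fun i => 2 * 4 ^ i + 1, inferInstance, geo_full _ fun i => ⟨4 ^ i, rfl⟩, ?_⟩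
  intro Ω _ P _ x D h
  have := percolates h (c := 1 / 2) (by positivity) fun k => by
    have h1 : (2⁻¹ : ℝ≥0∞) ^ (k + 1) ≤ geo (fun i => 2 * 4 ^ i + 1) {n | 2 * 4 ^ k ≤ n} :=
      geo_ge _ (show 2 * 4 ^ k ≤ 2 * 4 ^ k + 1 by omega)
    have h3 := ENNReal.toReal_mono (measure_ne_top _ _) h1
    refine le_trans (le_of_eq ?_) h3
    rw [ENNReal.toReal_pow, ENNReal.toReal_inv, ENNReal.toReal_ofNat]
    ring
  filter_upwards [this] with ω hω G hG
  exact hω G hG.toStable

end Pool.Agent.Results.MP_32afb7_pr.OddDegreesPercolate
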